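import Pool.Agent.W251.EG.Out8

/-!
The factorisations `d d' = n^2+1`, and those of the values of eight further polynomials: joint
patterns of the Liouville function at `d` and `d'` and of a completely multiplicative function `f`
with values `1`, `-1` at `d d'`, for which `f(p)`, `p` prime, depends on the residue class of `p`, or
of a prime element of norm `p`, modulo `m`.
-/

set_option autoImplicit false

namespace Pool.Agent.Results.MP_484c84_nt.ClassPatterns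

open Finset Filter ArithmeticFunction

open scoped Classical in
/-- the set of the positive integers `X` with `P X` has logarithmic density `0` -/
def LogNull (P : ℕ → Prop) : Prop :=
  Tendsto (fun Z : ℕ => (∑ X ∈ (Icc 1 Z).filter P, 1 / (X : ℝ)) / Real.log Z) atTop (nhds 0)

/-- the nine pairs `(t, c)` with `t` in `{0, 1}` and `x^2+tx+c` of discriminant `-4`, `-8`, `-3`,
`-7`, `-11`, `-19`, `-43`, `-67`, `-163` -/
def nine : List (ℕ × ℕ) :=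
  [(0, 1), (0, 2), (1, 1), (1, 2), (1, 3), (1, 5), (1, 11), (1, 17), (1, 41)]

/-- `f` is completely multiplicative on the positive integers, with values `1`, `-1` -/
structure SignFunction (f : ℕ → ℤ) : Prop where
  mul : ∀ x y : ℕ, x ≠ 0 → y ≠ 0 → f (x * y) = f x * f y
  pm : ∀ n : ℕ, n ≠ 0 → f n = 1 ∨ f n = -1

/-- `E` is periodic modulo `m` in both variables, and `f p = E x y` whenever `p = x^2+txy+cy^2` is a
prime not dividing `m` -/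
structure Determined (t c m : ℕ) (E : ℤ → ℤ → ℤ) (f : ℕ → ℤ) : Prop where
  pos : 1 ≤ m
  per : ∀ x y u v : ℤ, x ≡ u [ZMOD m] → y ≡ v [ZMOD m] → E x y = E u v
  val : ∀ (x y : ℤ) (p : ℕ), p.Prime → ¬ p ∣ m → x ^ 2 + t * x * y + c * y ^ 2 = p → f p = E x y

/-- `E(z w) = E(z) E(w)` for all `z = x + y ω`, `w = u + v ω` of norms prime to `m`, where
`ω^2 = t ω - c` and the norm of `z` is `x^2+txy+cy^2` -/
def Multiplicative (t c m : ℕ) (E : ℤ → ℤ → ℤ) : Prop := ∀ x y u v : ℤ,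
  IsCoprime (x ^ 2 + t * x * y + c * y ^ 2) (m : ℤ) →
  IsCoprime (u ^ 2 + t * u * v + c * v ^ 2) (m : ℤ) →
  E (x * u - c * y * v) (x * v + y * u + t * y * v) = E x y * E u v

open scoped Classical in
/-- the pairs `(d, d')` with `d d' = n^2+tn+c`, `n ≥ 0`, `n ≥ 1 - t`, `n ≡ a mod q`, `d ≡ r mod q`,
`s₁ X < d ≤ s₂ X`, `s₃ X < d' ≤ s₄ X` and `d, d' ≤ X` -/
noncomputable def pairs (t c q a r : ℕ) (s₁ s₂ s₃ s₄ : ℝ) (X : ℕ) : Finset (ℕ × ℕ) :=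
  (Icc 1 X ×ˢ Icc 1 X).filter (fun p : ℕ × ℕ =>
    (∃ n : ℕ, 1 ≤ n + t ∧ p.1 * p.2 = n ^ 2 + t * n + c ∧ n ≡ a [MOD q] ∧ p.1 ≡ r [MOD q]) ∧
    (s₁ * X < p.1 ∧ p.1 ≤ s₂ * X ∧ s₃ * X < p.2 ∧ p.2 ≤ s₄ * X))

open scoped Classical in
/-- Let `(t, c)` be one of the nine pairs, `F(n) = n^2+tn+c`, let `f` be completely multiplicative
with values `1`, `-1` and determined at the primes by `E`, periodic modulo `m`. Suppose that neither
`E` nor `-E` is multiplicative. Let `q ≥ 1`, `a`, `r` be integers.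

1. For `0 ≤ s₁ < s₂ ≤ 1`, `0 ≤ s₃ < s₄ ≤ 1` and almost all `X` the eight patterns
  `(f(d d'), λ(d), λ(d'))` are equidistributed over the factorisations `d d' = F(n)` in `pairs`, up
  to `o(X)`.
2. For some `c₁ > 0` and all large `X` at least `c₁ X` pairs `(d, d')` of positive integers `≤ X`
  have `d d' = F(n)` with `n ≡ a mod q`. -/
theorem result (t c : ℕ) (htc : (t, c) ∈ nine) (f : ℕ → ℤ) (hf : SignFunction f) (m : ℕ)
    (E : ℤ → ℤ → ℤ) (hE : Determined t c m E f) (hne : ¬ Multiplicative t c m E)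
    (hne' : ¬ Multiplicative t c m (fun x y => -E x y)) (q : ℕ) (hq : 1 ≤ q) (a : ℕ) :
    (∀ (r : ℕ) (s₁ s₂ s₃ s₄ : ℝ), 0 ≤ s₁ → s₁ < s₂ → s₂ ≤ 1 → 0 ≤ s₃ → s₃ < s₄ → s₄ ≤ 1 →
      ∀ e₀ e₁ e₂ : ℤ, (e₀ = 1 ∨ e₀ = -1) → (e₁ = 1 ∨ e₁ = -1) → (e₂ = 1 ∨ e₂ = -1) →
      ∀ ε : ℝ, 0 < ε → LogNull (fun X : ℕ => ε * X <
        |(((pairs t c q a r s₁ s₂ s₃ s₄ X).filter (fun p => f (p.1 * p.2) = e₀ ∧
          (-1) ^ cardFactors p.1 = e₁ ∧ (-1) ^ cardFactors p.2 = e₂)).card : ℝ) -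
          1 / 8 * ((pairs t c q a r s₁ s₂ s₃ s₄ X).card : ℝ)|)) ∧
    ∃ c₁ : ℝ, 0 < c₁ ∧ ∃ X₀ : ℕ, ∀ X : ℕ, X₀ ≤ X →
      c₁ * X ≤ (((Icc 1 X ×ˢ Icc 1 X).filter (fun p : ℕ × ℕ =>
        ∃ n : ℕ, 1 ≤ n + t ∧ p.1 * p.2 = n ^ 2 + t * n + c ∧ n ≡ a [MOD q])).card : ℝ) := by
  obtain ⟨_, χ, hF⟩ := Pool.Agent.W251.EG.fd9 t c htc
  have hSg : Pool.Agent.W251.EG.Sg f := ⟨hf.mul, hf.pm⟩
  have hDt : Pool.Agent.W251.EG.Dt t c m E f := ⟨hE.pos, hE.per, hE.val⟩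
  have hNm : Pool.Agent.W251.EG.Nm t c m E := by
    unfold Multiplicative at hne
    push Not at hne
    exact hne
  have hNm' : Pool.Agent.W251.EG.Nm t c m (fun x y => -E x y) := by
    unfold Multiplicative at hne'
    push Not at hne'
    exact hne'
  have h1 := Pool.Agent.W251.EG.apdF hF hSg hDt hNm
  have h2 := Pool.Agent.W251.EG.apdF hF hSg.fl hDt.fl hNm'
  have hpairs : ∀ (r : ℕ) (s₁ s₂ s₃ s₄ : ℝ) (X : ℕ), pairs t c q a r s₁ s₂ s₃ s₄ X =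
      Pool.Agent.W78.EG.SW (t : ℤ) (c : ℤ) q a r s₁ s₂ s₃ s₄ X := by
    intro r s₁ s₂ s₃ s₄ X
    ext p
    rw [Pool.Agent.W251.EG.mem_SWn]
    unfold pairs
    simp only [mem_filter, mem_product, mem_Icc]
  refine ⟨fun r s₁ s₂ s₃ s₄ i1 i2 i3 i4 i5 i6 e₀ e₁ e₂ he₀ he₁ he₂ ε hε => ?_,
    Pool.Agent.W251.EG.outPG hF q a hq⟩
  have h3 := Pool.Agent.W251.EG.outP8 hF hSg h1 h2 q hq a r s₁ s₂ s₃ s₄ i1 i2 i3 i4 i5 i6 e₀ e₁ e₂
    he₀ he₁ he₂ ε hε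
  unfold LogNull
  simp only [hpairs]
  exact h3

end Pool.Agent.Results.MP_484c84_nt.ClassPatterns
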