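import Mathlib
import Pool.Agent.W78.EC.All
import Pool.Agent.W251.EX.Out5

/-!
The four sign patterns of the Liouville function at the two factors `d`, `d'` of the integers
`d d' = n^2+1` are equidistributed: by natural counting, in all windows, at almost all scales, and
with respect to the logarithmic weight `1/max(d,d')`.

Method: pairs of Gaussian integers of determinant `1`, Tao's entropy decrement argument on the
Farey tree of the primitive Gaussian integers, a large sieve estimate for prime determinants, and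
the Matomaki-Radziwill theorem for the angles of Gaussian integers in residue classes; for almost
all scales, inversion of a multiplicative convolution.
-/

set_option autoImplicit false

open Finset Filter ArithmeticFunction

open scoped Classical in
/-- Consider the pairs `(d, d')` of positive integers with `d d' = n^2+1` for some `n`; at least `c X`
of them have `d, d' ≤ X`, if `X` is large. Let `λ` be the Liouville function and `e₁`, `e₂` signs.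

* For all `0 ≤ s₁ < s₂ ≤ 1`, `0 ≤ s₃ < s₄ ≤ 1` and `ε > 0` the set of all `X` for which the number of
  the pairs with `s₁ X < d ≤ s₂ X`, `s₃ X < d' ≤ s₄ X`, `λ(d) = e₁`, `λ(d') = e₂` differs from `1/4`
  of the number of the pairs with `s₁ X < d ≤ s₂ X`, `s₃ X < d' ≤ s₄ X` by more than `ε X` has
  logarithmic density `0`.
* Give the pair `(d, d')` the weight `1/max(d,d')`. The pairs with `d, d' ≤ N` and `λ(d) = e₁`,
  `λ(d') = e₂` carry the proportion `1/4 + o(1)` of the weight of all pairs with `d, d' ≤ N`, and the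
  weight of all pairs is at least `c log N` for some `c > 0`. -/
theorem Pool.Agent.Results.MP_484c84_nt.LogEquidistribution.result :
    (∃ c : ℝ, 0 < c ∧ ∃ X₀ : ℕ, ∀ X : ℕ, X₀ ≤ X →
      c * X ≤ (((Icc 1 X ×ˢ Icc 1 X).filter (fun p : ℕ × ℕ =>
        ∃ n : ℕ, p.1 * p.2 = n ^ 2 + 1)).card : ℝ)) ∧
    (∀ e₁ e₂ : ℤ, (e₁ = 1 ∨ e₁ = -1) → (e₂ = 1 ∨ e₂ = -1) →
      (∀ s₁ s₂ s₃ s₄ : ℝ, 0 ≤ s₁ → s₁ < s₂ → s₂ ≤ 1 → 0 ≤ s₃ → s₃ < s₄ → s₄ ≤ 1 →
        ∀ ε : ℝ, 0 < ε → Tendsto (fun N : ℕ => (∑ X ∈ (Icc 1 N).filter (fun X : ℕ => ε * X <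
          |(((Icc 1 X ×ˢ Icc 1 X).filter (fun p : ℕ × ℕ => (∃ n : ℕ, p.1 * p.2 = n ^ 2 + 1) ∧
              (s₁ * X < p.1 ∧ p.1 ≤ s₂ * X ∧ s₃ * X < p.2 ∧ p.2 ≤ s₄ * X) ∧
              (-1 : ℤ) ^ cardFactors p.1 = e₁ ∧ (-1 : ℤ) ^ cardFactors p.2 = e₂)).card : ℝ) -
            1 / 4 * ((Icc 1 X ×ˢ Icc 1 X).filter (fun p : ℕ × ℕ =>
              (∃ n : ℕ, p.1 * p.2 = n ^ 2 + 1) ∧
              (s₁ * X < p.1 ∧ p.1 ≤ s₂ * X ∧ s₃ * X < p.2 ∧ p.2 ≤ s₄ * X))).card|),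
          1 / (X : ℝ)) / Real.log N) atTop (nhds 0)) ∧
      Tendsto (fun N : ℕ =>
        (∑ p ∈ (Icc 1 N ×ˢ Icc 1 N).filter (fun p : ℕ × ℕ => (∃ n : ℕ, p.1 * p.2 = n ^ 2 + 1) ∧
            (-1 : ℤ) ^ cardFactors p.1 = e₁ ∧ (-1 : ℤ) ^ cardFactors p.2 = e₂),
          1 / (max p.1 p.2 : ℝ)) /
        ∑ p ∈ (Icc 1 N ×ˢ Icc 1 N).filter (fun p : ℕ × ℕ => ∃ n : ℕ, p.1 * p.2 = n ^ 2 + 1),
          1 / (max p.1 p.2 : ℝ)) atTop (nhds (1 / 4))) ∧
    ∃ c : ℝ, 0 < c ∧ ∀ N : ℕ, 2 ≤ N → c * Real.log N ≤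
      ∑ p ∈ (Icc 1 N ×ˢ Icc 1 N).filter (fun p : ℕ × ℕ => ∃ n : ℕ, p.1 * p.2 = n ^ 2 + 1),
        1 / (max p.1 p.2 : ℝ) := by
  refine ⟨Pool.Agent.W251.EX.outS', fun e₁ e₂ h₁ h₂ => ⟨fun s₁ s₂ s₃ s₄ h3 h4 h5 h6 h7 h8 ε hε =>
    Pool.Agent.W251.EX.outS e₁ e₂ h₁ h₂ s₁ s₂ s₃ s₄ ε h3 h4 h5 h6 h7 h8 hε, ?_⟩,
    Pool.Agent.W78.EC.slowAll⟩
  have h := Pool.Agent.W78.EC.finalAll.1 e₁ e₂ h₁ h₂
  refine h.congr fun N => ?_
  unfold Pool.Agent.W78.EC.SP Pool.Agent.H376R2.MR.lam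
  rw [filter_filter]
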