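import Pool.Agent.W123.RU.PolyV

set_option autoImplicit false

/-!
# Almost prime values of polynomials in all windows around a positive proportion of the integers

Let `f₁, …, f_k` be distinct irreducible integer polynomials with positive leading coefficients whose
product has no fixed prime divisor (for instance `k = 1` and `4 X² + 1`; the case `X² + 1` is included,
because `2` does not divide `0² + 1`). There are `r` and `c₁, c₂, K > 0` such that a positive proportion
of all integers `n` is regular: every interval `(a, b]` with `a ≤ n ≤ b` and `K log ^ k n ≤ b - a ≤ n`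
contains between `c₁ (b - a) / log ^ k n` and `c₂ (b - a) / log ^ k n` integers `m` for which every
`f_i(m)` has at most `r` prime factors, all larger than `n ^ (1 / r)`.
-/

namespace Pool.Agent.Results.MP_484c84_nt.RegularWindows

open Polynomial Finset Filter

/-- every value `f i (m)` has at most `r` prime factors (with multiplicity), all of them larger than
`z`. -/
def AlmostPrimeValues {ι : Type} (f : ι → ℤ[X]) (r : ℕ) (z : ℝ) (m : ℕ) : Prop :=
  ∀ i, ((f i).eval (m : ℤ)).natAbs.primeFactorsList.length ≤ r ∧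
    ∀ p : ℕ, p.Prime → (p : ℤ) ∣ (f i).eval (m : ℤ) → z < (p : ℝ)

open Classical in
/-- `n` is regular. -/
def Regular {ι : Type} [Fintype ι] (f : ι → ℤ[X]) (r : ℕ) (c₁ c₂ K : ℝ) (n : ℕ) : Prop :=
  ∀ a b : ℕ, a ≤ n → n ≤ b → K * Real.log n ^ Fintype.card ι ≤ (b : ℝ) - a → (b : ℝ) - a ≤ n →
    c₁ * ((b : ℝ) - a) / Real.log n ^ Fintype.card ι ≤
      (((Finset.Ioc a b).filter
        (fun m => AlmostPrimeValues f r ((n : ℝ) ^ (1 / (r : ℝ))) m)).card : ℝ) ∧
    (((Finset.Ioc a b).filter
        (fun m => AlmostPrimeValues f r ((n : ℝ) ^ (1 / (r : ℝ))) m)).card : ℝ) ≤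
      c₂ * ((b : ℝ) - a) / Real.log n ^ Fintype.card ι

open Pool.Agent.W123.RP Pool.Agent.H373R2.T7 Pool.Agent.W123.RU Pool.Agent.W123.RU.Poly

open Classical in
/-- **Regular windows.** -/
theorem result {ι : Type} [Fintype ι] [Nonempty ι] (f : ι → ℤ[X])
    (hirr : ∀ i, Irreducible (f i)) (hdeg : ∀ i, 0 < (f i).natDegree)
    (hlead : ∀ i, 0 < (f i).leadingCoeff) (hinj : Function.Injective f)
    (hadm : ∀ p : ℕ, p.Prime → ∃ m : ℕ, ∀ i, ¬ (p : ℤ) ∣ (f i).eval (m : ℤ)) :
    ∃ (r : ℕ) (c₁ c₂ K κ : ℝ), 0 < c₁ ∧ 0 < c₂ ∧ 0 < K ∧ 0 < κ ∧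
    ∀ᶠ x : ℕ in atTop,
      κ * x ≤ (((Finset.Icc 1 x).filter (fun n => Regular f r c₁ c₂ K n)).card : ℝ) := by
  have hf : Sys f := ⟨hirr, hdeg, hlead, hinj, hadm⟩
  obtain ⟨k, hk⟩ : ∃ k, k = Fintype.card ι := ⟨_, rfl⟩
  have hk1 : 1 ≤ k := by rw [hk]; exact Fintype.card_pos
  obtain ⟨c, hc, hQ⟩ := exists_c f hf
  obtain ⟨D', e, hlarge⟩ := exists_large f hf
  obtain ⟨v, Cv, hv, hCv, hV⟩ := V_bounds f hf
  rw [← hk] at hV
  obtain ⟨K1, hK1, hmain⟩ := sieve_regular c (2 * c) (c ^ 2) D' e hc
  obtain ⟨K2, hK2, hlow⟩ := rough_lower c hc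
  choose Ki Di hKD using fun i => eval_bound (f i)
  obtain ⟨A, hA⟩ : ∃ A : ℕ, A = 1 + ∑ i, Ki i := ⟨_, rfl⟩
  obtain ⟨d, hd⟩ : ∃ d : ℕ, d = ∑ i, Di i := ⟨_, rfl⟩
  obtain ⟨r, hr⟩ : ∃ r : ℕ, r = max K1 K2 := ⟨_, rfl⟩
  have hr1 : K1 ≤ r := by rw [hr]; exact le_max_left _ _
  have hr2 : K2 ≤ r := by rw [hr]; exact le_max_right _ _
  have hr0 : 2 ≤ r := hK1.trans hr1
  have hrr : (2 : ℝ) ≤ r := by exact_mod_cast hr0
  have hrpos : (0 : ℝ) < r := by linarith
  obtain ⟨R, hR⟩ : ∃ R : ℕ, R = (d + 2) * r := ⟨_, rfl⟩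
  have hRr : (R : ℝ) = (d + 2) * r := by rw [hR]; push_cast; ring
  have hR2r : 2 * r ≤ R := by rw [hR]; nlinarith
  have hR0 : 2 ≤ R := by omega
  have hR2r' : 2 * (r : ℝ) ≤ R := by exact_mod_cast hR2r
  have hRpos : (0 : ℝ) < R := by linarith
  set C3 : ℝ := Cv * (2 * R) ^ k with hC3
  have hC30 : 0 < C3 := by positivity
  obtain ⟨c₁, c₂, K, κ, L0, hc₁, hc₂, hK, hκ, hreg⟩ := hmain R (by omega) (v / 2) C3 (by positivity) hC30
  refine ⟨R, c₁, c₂ * 2 ^ k, K, κ / 4, hc₁, by positivity, by linarith, by positivity, ?_⟩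
  have hXr : Tendsto (fun X : ℕ => (X : ℝ)) atTop atTop := tendsto_natCast_atTop_atTop
  have hpow : Tendsto (fun X : ℕ => (X : ℝ) ^ (1 / (2 * R : ℝ))) atTop atTop :=
    (tendsto_rpow_atTop (by positivity)).comp hXr
  have hlogX : Tendsto (fun X : ℕ => Real.log (X : ℝ)) atTop atTop :=
    Real.tendsto_log_atTop.comp hXr
  have key : ∀ᶠ X : ℕ in atTop, κ * X ≤
      (((Finset.Ioc X (2 * X)).filter (fun n => Regular f R c₁ (c₂ * 2 ^ k) K n)).card : ℝ) := by
    filter_upwards [hreg, hlow r hr2 (k + 1), eventually_ge_atTop (max 16 (A * 5 ^ d)),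
      hpow.eventually_ge_atTop 3, hlogX.eventually_ge_atTop (2 + |L0| + 1 / v),
      logpow_le (8 * k) 1 (by norm_num)] with X hreg hlow hX16' hX2 hXlog hlp
    have hX16 : 16 ≤ X := (le_max_left _ _).trans hX16'
    have hXA : A * 5 ^ d ≤ X := (le_max_right _ _).trans hX16'
    have hX16r : (16 : ℝ) ≤ X := by exact_mod_cast hX16
    have hXpos : (0 : ℝ) < X := by linarith
    have hX1 : (1 : ℝ) ≤ X := by linarith
    have hL0a : 0 ≤ |L0| := abs_nonneg _
    have hv1 : 0 < 1 / v := by positivity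
    have hlX2 : 2 ≤ Real.log X := by linarith
    have hlX : 0 < Real.log X := by linarith
    have hlX1 : 1 ≤ Real.log X := by linarith
    set L : ℝ := Real.log X ^ k with hL
    have hlL : Real.log X ≤ L := by
      calc Real.log X = Real.log X ^ 1 := (pow_one _).symm
        _ ≤ Real.log X ^ k := pow_le_pow_right₀ hlX1 hk1
    have hLpos : 0 < L := by linarith
    have hL8 : L ^ 8 ≤ X := by
      rw [hL, ← pow_mul, mul_comm k 8]
      linarith
    obtain ⟨hy1, hy2, hy3, hy4⟩ := level_low R hR0 X (by omega) (by linarith)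
    have hmono : (X : ℝ) ^ (1 / (2 * R : ℝ)) ≤ (X : ℝ) ^ (1 / (2 * r : ℝ)) := by
      apply Real.rpow_le_rpow_of_exponent_le hX1
      apply one_div_le_one_div_of_le (by positivity)
      linarith
    obtain ⟨hz1, hz2, hz3, hz4⟩ := level_low r hr0 X (by omega) (by linarith)
    have hy5 : 3 ≤ ⌊(X : ℝ) ^ (1 / (R : ℝ))⌋₊ := by
      have : (3 : ℝ) ≤ ⌊(X : ℝ) ^ (1 / (R : ℝ))⌋₊ := hX2.trans hy1
      exact_mod_cast this
    have hz5 : 3 ≤ ⌊(X : ℝ) ^ (1 / (r : ℝ))⌋₊ := by
      have : (3 : ℝ) ≤ ⌊(X : ℝ) ^ (1 / (r : ℝ))⌋₊ := hX2.trans (hmono.trans hz1)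
      exact_mod_cast this
    have hylog : 0 < Real.log ⌊(X : ℝ) ^ (1 / (R : ℝ))⌋₊ := lt_of_lt_of_le (by positivity) hy2
    have hzlog : 0 < Real.log ⌊(X : ℝ) ^ (1 / (r : ℝ))⌋₊ := lt_of_lt_of_le (by positivity) hz2
    have h2X : ((2 * X : ℕ) : ℝ) ^ (1 / (R : ℝ)) ≤ (X : ℝ) ^ (1 / (r : ℝ)) := by
      calc ((2 * X : ℕ) : ℝ) ^ (1 / (R : ℝ)) ≤ ((X : ℝ) ^ (2 : ℝ)) ^ (1 / (R : ℝ)) := by
            apply Real.rpow_le_rpow (by positivity) _ (by positivity)
            push_cast
            rw [Real.rpow_two]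
            nlinarith
        _ = (X : ℝ) ^ (2 * (1 / (R : ℝ))) := by rw [← Real.rpow_mul hXpos.le]
        _ ≤ (X : ℝ) ^ (1 / (r : ℝ)) := by
          apply Real.rpow_le_rpow_of_exponent_le hX1
          rw [mul_one_div, div_le_div_iff₀ hRpos hrpos]
          linarith
    -- upper bound of the sieve product
    have hVy : Vq (Q f) ⌊(X : ℝ) ^ (1 / (R : ℝ))⌋₊ ≤ C3 / L := by
      refine (hV _ hy5).2.trans ?_
      have h1 : (Real.log X / (2 * R)) ^ k ≤ Real.log ⌊(X : ℝ) ^ (1 / (R : ℝ))⌋₊ ^ k :=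
        pow_le_pow_left₀ (by positivity) hy2 k
      calc Cv / Real.log ⌊(X : ℝ) ^ (1 / (R : ℝ))⌋₊ ^ k ≤ Cv / (Real.log X / (2 * R)) ^ k := by gcongr
        _ = C3 / L := by rw [hC3, hL, div_pow]; field_simp
    -- lower bound
    have hVz : v / L ≤ Vq (Q f) ⌊(X : ℝ) ^ (1 / (r : ℝ))⌋₊ := by
      refine le_trans ?_ (hV _ hz5).1
      rw [hL]
      gcongr
    obtain ⟨E0, hE0, hlarge'⟩ := hlarge ⌊L⌋₊
    -- the sets
    obtain ⟨P, hP⟩ : ∃ P : ℕ → Prop, ∀ m, P m ↔ (m ≤ 4 * X ∧
      ∀ p ∈ pz ⌊(X : ℝ) ^ (1 / (r : ℝ))⌋₊, ¬ Q f p m) := ⟨_, fun m => Iff.rfl⟩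
    obtain ⟨P', hP'⟩ : ∃ P' : ℕ → Prop, ∀ m, P' m ↔ (∀ p ∈ pz ⌊(X : ℝ) ^ (1 / (R : ℝ))⌋₊, ¬ Q f p m) :=
      ⟨_, fun m => Iff.rfl⟩
    have hPP : ∀ m, P m → P' m := by
      intro m hm
      rw [hP'] 
      intro p hp
      apply ((hP m).1 hm).2 p
      rw [mem_pz] at hp ⊢
      refine ⟨hp.1.trans (Nat.floor_le_floor ?_), hp.2⟩
      apply Real.rpow_le_rpow_of_exponent_le hX1
      apply one_div_le_one_div_of_le hrpos
      linarith
    have hcnt : v / 2 * X / L ≤ (co P X (2 * X) : ℝ) := by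
      have h1 := hlow (Q f) hQ (by
        refine le_trans ?_ hVz
        rw [div_le_div_iff₀ (by positivity) hLpos, one_mul, pow_succ]
        have h2 : 1 ≤ v * Real.log X := by
          have : 1 / v ≤ Real.log X := by linarith
          rw [div_le_iff₀ hv] at this
          linarith
        calc L = L * 1 := (mul_one L).symm
          _ ≤ L * (v * Real.log X) := by gcongr
          _ = _ := by rw [hL]; ring)
      have h2 : (((Finset.Ioc X (2 * X)).filter (fun n =>
          ∀ p ∈ pz ⌊(X : ℝ) ^ (1 / (r : ℝ))⌋₊, ¬ Q f p n)).card : ℝ) ≤ (co P X (2 * X) : ℝ) := by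
        have : ((Finset.Ioc X (2 * X)).filter (fun n =>
          ∀ p ∈ pz ⌊(X : ℝ) ^ (1 / (r : ℝ))⌋₊, ¬ Q f p n)).card ≤ co P X (2 * X) := by
          unfold co
          apply card_le_card
          intro m hm
          rw [mem_filter, mem_Ioc] at hm
          rw [mem_filter, mem_Ioc, hP]
          exact ⟨hm.1, by omega, hm.2⟩
        exact_mod_cast this
      refine le_trans ?_ (h1.trans h2)
      calc v / 2 * X / L = v / L * X / 2 := by ring
        _ ≤ _ := by gcongr
    have hfin := hreg (Q f) (CoG (Q f)) L E0 (sdata f hf c hQ) (by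
      have := le_abs_self L0
      linarith) hL8 hVy hE0 (hlarge' _) P P' hPP (fun m hm _ _ => (hP' m).1 hm) hcnt
    refine hfin.trans ?_
    have hsub : (Finset.Ioc X (2 * X)).filter (fun n => ∀ a b : ℕ, a ≤ n → n ≤ b →
        K * L ≤ (b : ℝ) - a → (b : ℝ) - a ≤ n →
          c₁ * ((b : ℝ) - a) / L ≤ co P a b ∧
            (co P' a b : ℝ) ≤ c₂ * ((b : ℝ) - a) / L) ⊆
        (Finset.Ioc X (2 * X)).filter (fun n => Regular f R c₁ (c₂ * 2 ^ k) K n) := by
      intro n hn
      rw [mem_filter, mem_Ioc] at hn ⊢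
      obtain ⟨⟨hn1, hn2⟩, hn3⟩ := hn
      refine ⟨⟨hn1, hn2⟩, ?_⟩
      intro a b han hnb hab hbn
      rw [← hk] at hab ⊢
      have hnr : (X : ℝ) < n := by exact_mod_cast hn1
      have hnr2 : (n : ℝ) ≤ 2 * X := by exact_mod_cast hn2
      have hnr3 : (n : ℝ) ≤ ((2 * X : ℕ) : ℝ) := by push_cast; exact hnr2
      have hl1 : Real.log X ≤ Real.log n := Real.log_le_log hXpos hnr.le
      have hln : 0 < Real.log n := by linarith
      have hl2 : Real.log n ≤ 2 * Real.log X := by
        calc Real.log n ≤ Real.log ((X : ℝ) ^ 2) := Real.log_le_log (by linarith) (by nlinarith)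
          _ = 2 * Real.log X := by rw [Real.log_pow]; norm_num
      have hab' : (a : ℝ) ≤ b := by exact_mod_cast han.trans hnb
      have hsq : L ≤ Real.log n ^ k := by rw [hL]; gcongr
      obtain ⟨f1, f2⟩ := hn3 a b han hnb (by
        refine le_trans ?_ hab
        gcongr) hbn
      have hb4 : b ≤ 4 * X := by
        have : (b : ℝ) ≤ a + n := by linarith
        have h5 : b ≤ a + n := by exact_mod_cast this
        omega
      have hz1' : (X : ℝ) ^ (1 / (R : ℝ)) ≤ (n : ℝ) ^ (1 / (R : ℝ)) :=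
        Real.rpow_le_rpow hXpos.le hnr.le (by positivity)
      have hz2' : (n : ℝ) ^ (1 / (R : ℝ)) ≤ (X : ℝ) ^ (1 / (r : ℝ)) :=
        (Real.rpow_le_rpow (by linarith) hnr3 (by positivity)).trans h2X
      constructor
      · calc c₁ * ((b : ℝ) - a) / Real.log n ^ k ≤ c₁ * ((b : ℝ) - a) / L := by
              apply div_le_div_of_nonneg_left _ (by positivity) hsq
              have : 0 ≤ (b : ℝ) - a := by linarith
              positivity
          _ ≤ (co P a b : ℝ) := f1
          _ ≤ _ := by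
              unfold co
              have : (Finset.Ioc a b).filter P ⊆ (Finset.Ioc a b).filter
                  (fun m => AlmostPrimeValues f R ((n : ℝ) ^ (1 / (R : ℝ))) m) := by
                intro m hm
                rw [mem_filter, mem_Ioc, hP] at hm
                rw [mem_filter, mem_Ioc]
                obtain ⟨hm1, hm2, hm3⟩ := hm
                refine ⟨hm1, ?_⟩
                intro i
                have hrough : ∀ p : ℕ, p.Prime → (p : ℤ) ∣ (f i).eval (m : ℤ) →
                    (X : ℝ) ^ (1 / (r : ℝ)) < p := by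
                  intro p hp hd
                  exact not_mem_pz hp (fun h => hm3 p h ⟨i, hd⟩)
                have hz0 : 2 ≤ (X : ℝ) ^ (1 / (r : ℝ)) := by
                  have h6 : ((⌊(X : ℝ) ^ (1 / (r : ℝ))⌋₊ : ℕ) : ℝ) ≤ (X : ℝ) ^ (1 / (r : ℝ)) :=
                    Nat.floor_le (by positivity)
                  have h7 : (2 : ℝ) ≤ ((⌊(X : ℝ) ^ (1 / (r : ℝ))⌋₊ : ℕ) : ℝ) := by exact_mod_cast hz4
                  linarith
                have hne : (f i).eval (m : ℤ) ≠ 0 := by
                  intro h0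
                  have := hrough 2 Nat.prime_two (by rw [h0]; exact dvd_zero _)
                  push_cast at this
                  linarith
                refine ⟨?_, fun p hp hd => lt_of_le_of_lt hz2' (hrough p hp hd)⟩
                apply length_le _ R (Int.natAbs_ne_zero.2 hne) ((X : ℝ) ^ (1 / (r : ℝ)))
                · intro p hp hd
                  exact hrough p hp (Int.natCast_dvd.2 hd)
                · have h8 := hKD i (m : ℤ)
                  have e1 : ((((f i).eval (m : ℤ)).natAbs : ℕ) : ℝ) =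
                      |(((f i).eval (m : ℤ) : ℤ) : ℝ)| := by
                    rw [Nat.cast_natAbs, Int.cast_abs]
                  have e2 : |((m : ℤ) : ℝ)| = (m : ℝ) := by
                    rw [Int.cast_natCast, abs_of_nonneg (Nat.cast_nonneg m)]
                  rw [e1]
                  rw [e2] at h8
                  have hm5 : (1 : ℝ) + m ≤ 5 * X := by
                    have h9 : m ≤ 4 * X := by omega
                    have h10 : (m : ℝ) ≤ 4 * X := by exact_mod_cast h9
                    linarith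
                  have hm6 : (1 : ℝ) ≤ 1 + m := by
                    have : (0 : ℝ) ≤ m := Nat.cast_nonneg m
                    linarith
                  have hKA : (Ki i : ℝ) ≤ A := by
                    have h9 : Ki i ≤ ∑ i, Ki i :=
                      Finset.single_le_sum (f := Ki) (fun _ _ => Nat.zero_le _) (mem_univ i)
                    have h10 : Ki i ≤ A := by omega
                    exact_mod_cast h10
                  have hDd : Di i ≤ d := by
                    rw [hd]
                    exact Finset.single_le_sum (f := Di) (fun _ _ => Nat.zero_le _) (mem_univ i)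
                  have hXA' : (A : ℝ) * 5 ^ d ≤ X := by exact_mod_cast hXA
                  have e3 : ((X : ℝ) ^ (1 / (r : ℝ))) ^ R = (X : ℝ) ^ (d + 2) := by
                    rw [← Real.rpow_natCast ((X : ℝ) ^ (1 / (r : ℝ))), ← Real.rpow_mul hXpos.le, hRr,
                      ← Real.rpow_natCast]
                    congr 1
                    push_cast
                    field_simp
                  rw [pow_succ, e3]
                  calc |(((f i).eval (m : ℤ) : ℤ) : ℝ)| ≤ Ki i * (1 + m) ^ Di i := h8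
                    _ ≤ A * (1 + m) ^ d := by
                      apply mul_le_mul hKA (pow_le_pow_right₀ hm6 hDd) (by positivity) (by positivity)
                    _ ≤ A * (5 * X) ^ d := by gcongr
                    _ = A * 5 ^ d * (X : ℝ) ^ d := by rw [mul_pow]; ring
                    _ ≤ X * (X : ℝ) ^ d := by gcongr
                    _ = (X : ℝ) ^ (d + 1) * 1 := by rw [pow_succ]; ring
                    _ ≤ (X : ℝ) ^ (d + 2) * (X : ℝ) ^ (1 / (r : ℝ)) := by
                      apply mul_le_mul (pow_le_pow_right₀ hX1 (by omega)) _ (by norm_num) (by positivity)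
                      linarith
                · linarith
              exact_mod_cast card_le_card this
      · calc (((Finset.Ioc a b).filter (fun m =>
              AlmostPrimeValues f R ((n : ℝ) ^ (1 / (R : ℝ))) m)).card : ℝ) ≤ (co P' a b : ℝ) := by
              unfold co
              have : (Finset.Ioc a b).filter (fun m =>
                  AlmostPrimeValues f R ((n : ℝ) ^ (1 / (R : ℝ))) m) ⊆ (Finset.Ioc a b).filter P' := by
                intro m hm
                rw [mem_filter] at hm ⊢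
                obtain ⟨hm1, hm2⟩ := hm
                rw [hP']
                refine ⟨hm1, ?_⟩
                rintro p hp ⟨i, hi⟩
                have h5 := (hm2 i).2 p (mem_pz.1 hp).2 hi
                have h6 := mem_pz' (by positivity) hp
                linarith
              exact_mod_cast card_le_card this
          _ ≤ c₂ * ((b : ℝ) - a) / L := f2
          _ ≤ c₂ * 2 ^ k * ((b : ℝ) - a) / Real.log n ^ k := by
              rw [div_le_div_iff₀ hLpos (by positivity)]
              have h5 : Real.log n ^ k ≤ 2 ^ k * L := by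
                rw [hL, ← mul_pow]
                gcongr
              have h6 : 0 ≤ c₂ * ((b : ℝ) - a) := mul_nonneg hc₂.le (by linarith)
              calc c₂ * ((b : ℝ) - a) * Real.log n ^ k ≤ c₂ * ((b : ℝ) - a) * (2 ^ k * L) := by gcongr
                _ = _ := by ring
    exact_mod_cast card_le_card hsub
  have hhalf : Tendsto (fun x : ℕ => x / 2) atTop atTop :=
    Nat.tendsto_div_const_atTop (by norm_num)
  filter_upwards [hhalf.eventually key, eventually_ge_atTop 4] with x hx hx4
  have h1 : (Finset.Ioc (x / 2) (2 * (x / 2))).filter (fun n => Regular f R c₁ (c₂ * 2 ^ k) K n) ⊆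
      (Finset.Icc 1 x).filter (fun n => Regular f R c₁ (c₂ * 2 ^ k) K n) := by
    intro n hn
    rw [mem_filter, mem_Ioc] at hn
    rw [mem_filter, mem_Icc]
    exact ⟨⟨by omega, by omega⟩, hn.2⟩
  have h2 : (((Finset.Ioc (x / 2) (2 * (x / 2))).filter
      (fun n => Regular f R c₁ (c₂ * 2 ^ k) K n)).card : ℝ) ≤
      (((Finset.Icc 1 x).filter (fun n => Regular f R c₁ (c₂ * 2 ^ k) K n)).card : ℝ) := by
    exact_mod_cast card_le_card h1
  refine le_trans ?_ (hx.trans h2)
  have h3 : (x : ℝ) ≤ 4 * ((x / 2 : ℕ) : ℝ) := by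
    have : x ≤ 4 * (x / 2) := by omega
    exact_mod_cast this
  calc κ / 4 * x ≤ κ / 4 * (4 * ((x / 2 : ℕ) : ℝ)) := by gcongr
    _ = _ := by ring

end Pool.Agent.Results.MP_484c84_nt.RegularWindows
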