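import Mathlib
import Pool.Agent.W84.T.All

/-!
All eight sign patterns of the Liouville function at the three numbers `d`, `d'`, `d + d' + 2 n`,
where `d d' = n^2 + 1`, with positive lower logarithmic density.

If `d d' = n^2 + 1` and `d'' = d + d' + 2 n` then `d d'' = (n + d)^2 + 1` and
`d' d'' = (n + d')^2 + 1`: the three numbers are the norms of the vertices `v`, `w`, `v + w` of a
Farey triangle of Gaussian integers.

Method: the pairs `(λ(d), λ(d'))` are equidistributed in the logarithmic sense (entropy decrement
argument and Matomaki-Radziwill theorem for Gaussian integers, project EC of helper78), also with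
weights depending on `d'/d`, and this applies to all three sides of the triangle. Hence it is enough
to show that the product of the three signs takes each value `c` for a positive proportion of the
triangles. If not, `c λ` is multiplicative along most cones of the Farey tree, which makes it
constant on the vectors of a residue class modulo `4` in most cones; this contradicts the
Matomaki-Radziwill theorem in sectors.
-/

set_option autoImplicit false

/-- For all signs `e₁, e₂, e₃` there is `κ > 0` such that for all large `N` the sum of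
`1 / max d d'` over all integers `1 ≤ n ≤ N` and all factorisations `n^2 + 1 = d d'` with
`λ(d) = e₁`, `λ(d') = e₂`, `λ(d + d' + 2 n) = e₃` is at least `κ log N`. -/
theorem Pool.Agent.Results.MP_484c84_nt.TrianglePatterns.result (e₁ e₂ e₃ : ℤ)
    (h₁ : e₁ = 1 ∨ e₁ = -1) (h₂ : e₂ = 1 ∨ e₂ = -1) (h₃ : e₃ = 1 ∨ e₃ = -1) :
    ∃ κ : ℝ, 0 < κ ∧ ∃ N₀ : ℕ, ∀ N : ℕ, N₀ ≤ N →
      κ * Real.log N ≤ ∑ n ∈ Finset.Icc 1 N, ∑ d ∈ (Nat.divisors (n ^ 2 + 1)).filter (fun d =>
        (-1 : ℤ) ^ ArithmeticFunction.cardFactors d = e₁ ∧
        (-1 : ℤ) ^ ArithmeticFunction.cardFactors ((n ^ 2 + 1) / d) = e₂ ∧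
        (-1 : ℤ) ^ ArithmeticFunction.cardFactors (d + (n ^ 2 + 1) / d + 2 * n) = e₃),
        1 / (max (d : ℝ) ((n ^ 2 + 1) / d : ℕ)) :=
  Pool.Agent.W84.T.out8All e₁ e₂ e₃ h₁ h₂ h₃
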